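import Pool.Agent.Q46.MH.Sumset

/-!
# Record prime gaps around the values of polynomials and inverses on sums of two arbitrary sets modulo `p`

Let `A`, `B` be ARBITRARY sets of residues modulo the prime `p` with `|A| |B| ≥ p^(1 + ε)` and `|A| ≥ p^(1/2 + ε)`, and let
`u`, `v` be ARBITRARY functions modulo `p`.  For a polynomial `f` of degree `d ≥ 2` look at the least residue `y` of
`f(a + b) + u(a) + v(b)`, or of `c / (a + b) + u(a) + v(b)` with `c ≠ 0`.  At least `|A| |B| p^(-ε)` of the pairs `(a, b)` are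
such that no prime lies at distance at most `κ log p (log₂ p)² log₄ p / (log₃ p)²` of `y`; the same with `y` in a prescribed
interval, if the sets are larger.  The constants depend on `d` and `ε` only.

Design and proof: helper46 (modules `Pool.Agent.Q46.MH.*`), on the covering criterion for vectors of integers of the
starting repository (`Pool.Agent.Y961.JR.critJ`) and its Weil bounds (`Pool.Agent.Y951.WP.weil_le` for polynomials,
`Pool.Agent.Y807.WB.weil_le` for differences of inverses).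
-/

set_option autoImplicit false

open Finset Polynomial

namespace Pool.Agent.Results.MP_028722_nt.FunctionsOnSumsets

/-- the record scale `log x (log₂ x)² log₄ x / (log₃ x)²` -/
noncomputable def scale (x : ℝ) : ℝ :=
  Real.log x * (Real.log (Real.log x)) ^ 2 * Real.log (Real.log (Real.log (Real.log x))) /
    (Real.log (Real.log (Real.log x))) ^ 2

/-- no prime at distance at most `K` of `n` -/
def Isolated (K : ℝ) (n : ℕ) : Prop := ∀ q : ℕ, q.Prime → K < |(q : ℝ) - n|

open Classical in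
/-- the number of pairs `z` in `S` for which the least residue `y` of `F z` satisfies `s ≤ y < s + N` and is isolated -/
noncomputable def hits {p : ℕ} (S : Finset (ZMod p × ZMod p)) (F : ZMod p × ZMod p → ZMod p) (s N : ℕ) (K : ℝ) : ℕ :=
  (S.filter (fun z => (s ≤ (F z).val ∧ (F z).val < s + N) ∧ Isolated K (F z).val)).card

/-- Let `d ≥ 2` and `0 < ε ≤ 1`. There are `κ > 0` and `p₀` such that for all primes `p ≥ p₀`, all sets `A`, `B` of residues
modulo `p` and all intervals `[s, s + N)` in `[0, p)` with `N² |A| |B| ≥ p^(3 + ε)` and `N² |A| ≥ p^(5/2 + ε)` (for `N = p`: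
`|A| |B| ≥ p^(1 + ε)` and `|A| ≥ p^(1/2 + ε)`), and for all functions `u`, `v` modulo `p`:

1. for every polynomial `f` modulo `p` of degree `d` at least `(N / p) |A| |B| p^(-ε)` pairs `(a, b)` in `A × B` are such
that the least residue of `f(a + b) + u(a) + v(b)` lies in `[s, s + N)` and has no prime at distance at most `κ scale p`;

2. for every `c ≠ 0` the same holds for `c / (a + b) + u(a) + v(b)` and the pairs with `a + b ≠ 0`. -/
theorem result : ∀ d : ℕ, 2 ≤ d → ∀ ε : ℝ, 0 < ε → ε ≤ 1 → ∃ κ : ℝ, 0 < κ ∧ ∃ p₀ : ℕ, ∀ p : ℕ, p₀ ≤ p → ∀ _ : Fact p.Prime,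
    ∀ (A B : Finset (ZMod p)) (u v : ZMod p → ZMod p) (s N : ℕ), s + N ≤ p →
      (p : ℝ) ^ (3 + ε) ≤ (N : ℝ) ^ 2 * A.card * B.card → (p : ℝ) ^ (5 / 2 + ε) ≤ (N : ℝ) ^ 2 * A.card →
      (∀ f : (ZMod p)[X], f.natDegree = d →
        (N : ℝ) * A.card * B.card / p * (p : ℝ) ^ (-ε) ≤
          hits (A ×ˢ B) (fun z => f.eval (z.1 + z.2) + u z.1 + v z.2) s N (κ * scale p)) ∧
      ∀ c : ZMod p, c ≠ 0 → (N : ℝ) * A.card * B.card / p * (p : ℝ) ^ (-ε) ≤
        hits ((A ×ˢ B).filter (fun z => z.1 + z.2 ≠ 0)) (fun z => c * (z.1 + z.2)⁻¹ + u z.1 + v z.2) s N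
          (κ * scale p) := by
  classical
  intro d hd ε h0 h1
  obtain ⟨κ₁, hκ₁, p₁, hp₁⟩ := Pool.Agent.Q46.MH.sumset_poly d hd ε h0 h1
  obtain ⟨κ₂, hκ₂, p₂, hp₂⟩ := Pool.Agent.Q46.MH.sumset_inv ε h0 h1
  have hpos : ∀ᶠ p : ℕ in Filter.atTop, 0 ≤ scale p := by
    have e1 : Filter.Tendsto (fun p : ℕ => Real.log (Real.log (Real.log (Real.log (p : ℝ))))) Filter.atTop
        Filter.atTop :=
      Real.tendsto_log_atTop.comp (Real.tendsto_log_atTop.comp (Real.tendsto_log_atTop.comp
        (Real.tendsto_log_atTop.comp tendsto_natCast_atTop_atTop)))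
    have e2 : Filter.Tendsto (fun p : ℕ => Real.log (p : ℝ)) Filter.atTop Filter.atTop :=
      Real.tendsto_log_atTop.comp tendsto_natCast_atTop_atTop
    filter_upwards [e1.eventually_ge_atTop 0, e2.eventually_ge_atTop 0] with p hp hp2
    unfold scale
    positivity
  obtain ⟨p₃, hp₃⟩ := Filter.eventually_atTop.1 hpos
  refine ⟨min κ₁ κ₂, lt_min hκ₁ hκ₂, max p₁ (max p₂ p₃), ?_⟩
  intro p hp hpp A B u v s N hs h2 h3
  have q1 := (le_max_left _ _).trans hp
  have q2 := (le_max_left _ _).trans ((le_max_right _ _).trans hp)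
  have q3 := (le_max_right _ _).trans ((le_max_right _ _).trans hp)
  have hsc := hp₃ p q3
  have hmono : ∀ (S : Finset (ZMod p × ZMod p)) (F : ZMod p × ZMod p → ZMod p) (κ : ℝ), min κ₁ κ₂ ≤ κ →
      (Pool.Agent.Q46.MH.good1 (κ * Pool.Agent.W147.PS.ff p) S (fun z => (F z).val) s N).card ≤
        hits S F s N (min κ₁ κ₂ * scale p) := by
    intro S F κ hκ
    unfold hits Pool.Agent.Q46.MH.good1
    apply card_le_card
    intro z hz
    rw [mem_filter, mem_Ico] at hz
    rw [mem_filter]
    refine ⟨hz.1, hz.2.1, fun q hq => lt_of_le_of_lt ?_ (hz.2.2 q hq)⟩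
    exact mul_le_mul_of_nonneg_right hκ hsc
  constructor
  · intro f hf
    refine (hp₁ p q1 hpp.out A B f hf u v s N hs h2 h3).trans ?_
    exact_mod_cast hmono _ _ κ₁ (min_le_left _ _)
  · intro c hc
    refine (hp₂ p q2 hpp.out A B c hc u v s N hs h2 h3).trans ?_
    exact_mod_cast hmono _ _ κ₂ (min_le_right _ _)

end Pool.Agent.Results.MP_028722_nt.FunctionsOnSumsets
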