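import Pool.Agent.Q46.MH.Mord

/-!
# Discrete logarithms together with the values of several polynomials meet record prime gaps

Let `g` be a residue modulo the prime `p`, for instance a primitive root, and let `f_1, ..., f_s` be polynomials of
degree at most `r` over the field with `p` elements no nontrivial linear combination of which is constant.  We look at
the exponents `n` and the residues of `f_1(g^n), ..., f_s(g^n)`; in other words, at the discrete logarithm `n` of `x`
and the values `f_1(x), ..., f_s(x)`, for instance at `n, g^n, g^(2n), ..., g^(rn)`.  For many `n` ALL these `s + 1`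
integers are in the middle of intervals of length `κ log p (log₂ p)² log₄ p / (log₃ p)²` without primes, also when they
are required to be in prescribed intervals.

Design and proof: helper46 (modules `Pool.Agent.Q46.MH.*`), on the covering criterion for vectors of integers of the
starting repository (`Pool.Agent.Y961.JR.critJ`).  The bound for the exponential sums with a multiplicative twist is
proved with the method of Mordell (moments and Newton's identities).
-/

set_option autoImplicit false

open Finset Polynomial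

namespace Pool.Agent.Results.MP_028722_nt.LogarithmsAndPolynomials

/-- the record scale `log x (log₂ x)² log₄ x / (log₃ x)²` -/
noncomputable def scale (x : ℝ) : ℝ :=
  Real.log x * (Real.log (Real.log x)) ^ 2 * Real.log (Real.log (Real.log (Real.log x))) /
    (Real.log (Real.log (Real.log x))) ^ 2

/-- no prime at distance at most `K` of `n` -/
def Isolated (K : ℝ) (n : ℕ) : Prop := ∀ q : ℕ, q.Prime → K < |(q : ℝ) - n|

/-- Let `r ≥ 1`, `s` be natural numbers and `0 < ε ≤ 1`. There are `κ > 0` and `p₀` such that for all primes `p ≥ p₀`,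
all nonzero residues `g` modulo `p`, `T` the order of `g`, all polynomials `f_1, ..., f_s` of degree at most `r` over the
field with `p` elements such that no nontrivial linear combination of the `f_i` is constant, and all intervals
`[A₀, A₀ + N₀)` in `[0, T)` and `[A_i, A_i + N_i)` in `[0, p)`, of lengths at least `p^ε`, with
`(N₀ N_1 ... N_s)^(2r) ≥ p^((2s + 1) r + ε) T^(r - 1)`:

there are at least `N₀ N_1 ... N_s p^(-s-ε)` natural numbers `n` in `[A₀, A₀ + N₀)` such that for all `i` the least
residue of `f_i(g^n)` is in `[A_i, A_i + N_i)`, and such that there is no prime at distance at most `κ scale p` of `n`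
or of any of these `s` least residues.

(If `g` is a primitive root, the condition holds if `N₀ N_1 ... N_s ≥ p^(s + 1 - 1/(2r) + ε)`.) -/
theorem result : ∀ (r s : ℕ), 1 ≤ r → ∀ ε : ℝ, 0 < ε → ε ≤ 1 → ∃ κ : ℝ, 0 < κ ∧ ∃ p₀ : ℕ,
    ∀ p : ℕ, p₀ ≤ p → ∀ [Fact p.Prime], ∀ (g : (ZMod p)ˣ) (f : Fin s → (ZMod p)[X]),
      (∀ i, (f i).natDegree ≤ r) → (∀ c : Fin s → ZMod p, (∑ i, C (c i) * f i).natDegree = 0 → c = 0) →
      ∀ (A₀ N₀ : ℕ) (A N : Fin s → ℕ), A₀ + N₀ ≤ orderOf g → (∀ i, A i + N i ≤ p) →
        (p : ℝ) ^ ε ≤ N₀ → (∀ i, (p : ℝ) ^ ε ≤ N i) →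
        (p : ℝ) ^ ((2 * s + 1) * r + ε) * ((orderOf g : ℕ) : ℝ) ^ (r - 1) ≤ ((N₀ : ℝ) * ∏ i, (N i : ℝ)) ^ (2 * r) →
        ∃ G : Finset ℕ, (N₀ : ℝ) * (∏ i, (N i : ℝ)) * (p : ℝ) ^ (-(s + ε)) ≤ G.card ∧ ∀ n ∈ G,
          (A₀ ≤ n ∧ n < A₀ + N₀) ∧
          (∀ i, A i ≤ ((f i).eval ((g : ZMod p) ^ n)).val ∧ ((f i).eval ((g : ZMod p) ^ n)).val < A i + N i) ∧
          Isolated (κ * scale p) n ∧
          ∀ i, Isolated (κ * scale p) ((f i).eval ((g : ZMod p) ^ n)).val := by
  intro r s hr ε h0 h1
  exact Pool.Agent.Q46.MH.logs r s hr ε h0 h1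

end Pool.Agent.Results.MP_028722_nt.LogarithmsAndPolynomials
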