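import Pool.Agent.Q20.RG.PolySys

/-!
# Record prime gaps around all the least residues `f_1(x), …, f_r(x)` modulo `p` at the same time

Let `r ≥ 1`, `d ≥ 0` and `0 < ε ≤ 1`.  There is `κ > 0` such that for all large primes `p`, all integer
polynomials `f_1, …, f_r` of degree at most `d` which are, together with the constant `1`, linearly
independent modulo `p`, and all intervals `[A_j, A_j + N_j)` in `[0, p)` with `∏ N_j ≥ p^(r - 1/2 + ε)`, at
least `(∏ N_j) p^(1 - r - ε)` of the `x` in `[0, p)` have the least residues of all the `f_j(x)` in the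
intervals and isolated on the record scale: no prime lies at distance at most
`κ log p (log₂ p)² log₄ p / (log₃ p)²` of any of the `r` residues.  The constants depend on `r`, `d` and
`ε` only.  The condition on the box is the one under which Weil's bound shows that the number of the
`x` is about `(∏ N_j) p^(1 - r)`.

For example (`f_j = X^j`) for every `r` there is an `x` in `[0, p)` for which `x` and the least residues of
`x², …, x^r` are all isolated on the record scale, and the intervals can be prescribed.

Proof (`Pool.Agent.Q20.RG`): Weil's bound for additive character sums of polynomials (starting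
library, `Pool.Agent.Y951.WP.weil_le`), completion in `r` coordinates and helper46's form
(`Pool.Agent.Q46.MH.crit_many`) of the covering criterion for vectors of integers of the starting
repository (`Pool.Agent.Y961.JR.critJ`).
-/

set_option autoImplicit false

namespace Pool.Agent.Results.MP_028722_nt.PolynomialSystems

open Polynomial

/-- the record scale `log x (log₂ x)² log₄ x / (log₃ x)²` -/
noncomputable def scale (x : ℝ) : ℝ :=
  Real.log x * (Real.log (Real.log x)) ^ 2 * Real.log (Real.log (Real.log (Real.log x))) /
    (Real.log (Real.log (Real.log x))) ^ 2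

/-- no prime at distance at most `K` of `n` -/
def Isolated (K : ℝ) (n : ℕ) : Prop := ∀ q : ℕ, q.Prime → K < |(q : ℝ) - n|

/-- the polynomials `f_1, …, f_r` and `1` are linearly independent modulo `p` -/
def IndependentMod (p : ℕ) {r : ℕ} (f : Fin r → ℤ[X]) : Prop :=
  ∀ (h : Fin r → ZMod p) (c : ZMod p),
    ∑ j, C (h j) * (f j).map (Int.castRingHom (ZMod p)) = C c → h = 0

/-- **Isolated values of systems of polynomials modulo primes.** For `r ≥ 1`, all `d`, all large primes
`p`, all integer polynomials `f j`, `j < r`, of degree at most `d` which are linearly independent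
modulo `p` together with `1`, and all intervals `[A j, A j + N j)` in `[0, p)` with
`∏ N j ≥ p^(r - 1/2 + ε)`, at least `(∏ N j) p^(1 - r - ε)` numbers `x < p` have the least residues of all
the `f j (x)` in the intervals and isolated on the record scale. -/
theorem result : ∀ r d : ℕ, 1 ≤ r → ∀ ε : ℝ, 0 < ε → ε ≤ 1 →
    ∃ κ : ℝ, 0 < κ ∧ ∃ p₀ : ℕ, ∀ p : ℕ, p₀ ≤ p → p.Prime →
    ∀ f : Fin r → ℤ[X], (∀ j, (f j).natDegree ≤ d) → IndependentMod p f →
    ∀ A N : Fin r → ℕ, (∀ j, A j + N j ≤ p) →
      (p : ℝ) ^ ((r : ℝ) - 1 / 2 + ε) ≤ ∏ j, (N j : ℝ) →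
      ∃ G : Finset ℕ, (∏ j, (N j : ℝ)) * (p : ℝ) ^ (1 - (r : ℝ) - ε) ≤ G.card ∧
        ∀ x ∈ G, x < p ∧ ∀ j, ∃ y : ℕ, (A j ≤ y ∧ y < A j + N j) ∧
          (p : ℤ) ∣ (f j).eval (x : ℤ) - y ∧ Isolated (κ * scale p) y :=
  fun r d hr ε h0 h1 => Pool.Agent.Q20.RG.sysmain r d hr ε h0 h1

end Pool.Agent.Results.MP_028722_nt.PolynomialSystems
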